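import Mathlib
import Pool.Agent.Helper543.PlaneC

/-! A set of `n` points, all but one on a circle, that determines few circles. -/

namespace Pool.Agent.H365R2.Circ

open Finset Pool.Agent.Helper543.Melchior Pool.Agent.Helper543.PlaneC

noncomputable section

/-- point of the unit circle with parameter `t` -/
def pt (t : ℝ) : Plane := !₂[(1 - t ^ 2) / (1 + t ^ 2), 2 * t / (1 + t ^ 2)]

/-- the `j`-th point: consecutive points `2 i`, `2 i + 1` are antipodal -/
def q (j : ℕ) : Plane := if j % 2 = 0 then pt (j / 2 + 1 : ℕ) else - pt (j / 2 + 1 : ℕ)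

/-- the points on the unit circle -/
def Q (N : ℕ) : Finset Plane := (range N).image q

/-- all points -/
def PP (N : ℕ) : Finset Plane := insert 0 (Q N)

lemma pt_norm (t : ℝ) : (pt t) 0 ^ 2 + (pt t) 1 ^ 2 = 1 := by
  have h : (1 + t ^ 2) ≠ 0 := by positivity
  simp only [pt, PiLp.toLp_apply, Matrix.cons_val_zero, Matrix.cons_val_one]
  field_simp
  ring

lemma q_norm (j : ℕ) : (q j) 0 ^ 2 + (q j) 1 ^ 2 = 1 := by
  unfold q
  split_ifs with h
  · exact pt_norm _
  · have := pt_norm ((j / 2 + 1 : ℕ) : ℝ)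
    simp only [PiLp.neg_apply, neg_sq]
    exact this

lemma pt_inj {s t : ℝ} (hs : 0 < s) (ht : 0 < t) (h : pt s = pt t) : s = t := by
  have h0 := congrArg (fun v : Plane => v 0) h
  simp only [pt, PiLp.toLp_apply, Matrix.cons_val_zero] at h0
  have h1 : (1 + s ^ 2) ≠ 0 := by positivity
  have h2 : (1 + t ^ 2) ≠ 0 := by positivity
  field_simp at h0
  have h3 : (s - t) * (s + t) = 0 := by nlinarith
  rcases mul_eq_zero.1 h3 with h4 | h4
  · linarith
  · linarith

lemma pt_snd_pos {t : ℝ} (ht : 0 < t) : 0 < (pt t) 1 := by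
  have e : (pt t) 1 = 2 * t / (1 + t ^ 2) := by simp [pt]
  rw [e]
  have : 0 < 2 * t := by linarith
  have h2 : 0 < 1 + t ^ 2 := by positivity
  exact div_pos this h2

lemma q_inj {i j : ℕ} (h : q i = q j) : i = j := by
  have hi : (0 : ℝ) < ((i / 2 + 1 : ℕ) : ℝ) := by positivity
  have hj : (0 : ℝ) < ((j / 2 + 1 : ℕ) : ℝ) := by positivity
  have e1 := pt_snd_pos hi
  have e2 := pt_snd_pos hj
  have h1 := congrArg (fun v : Plane => v 1) h
  unfold q at h h1
  by_cases hi2 : i % 2 = 0 <;> by_cases hj2 : j % 2 = 0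
  · rw [if_pos hi2, if_pos hj2] at h
    have := pt_inj hi hj h
    have : i / 2 + 1 = j / 2 + 1 := by exact_mod_cast this
    omega
  · rw [if_pos hi2, if_neg hj2] at h1
    simp only [PiLp.neg_apply] at h1
    linarith
  · rw [if_neg hi2, if_pos hj2] at h1
    simp only [PiLp.neg_apply] at h1
    linarith
  · rw [if_neg hi2, if_neg hj2] at h
    have := pt_inj hi hj (neg_injective h)
    have : i / 2 + 1 = j / 2 + 1 := by exact_mod_cast this
    omega

lemma q_ne_zero (j : ℕ) : q j ≠ 0 := by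
  intro h
  have := q_norm j
  rw [h] at this
  simp at this

lemma card_PP (N : ℕ) : (PP N).card = N + 1 := by
  unfold PP Q
  rw [card_insert_of_notMem, card_image_of_injective _ (fun _ _ h => q_inj h), card_range]
  intro h
  obtain ⟨j, -, hj⟩ := mem_image.1 h
  exact q_ne_zero j hj

/-- the unit circle -/
def U : Set Plane := Metric.sphere 0 1

lemma mem_U (x : Plane) : x ∈ U ↔ On 0 0 1 (phi x) := by
  unfold U
  rw [mem_sphere_iff 0 one_pos]
  simp

lemma on_q (j : ℕ) : On 0 0 1 (phi (q j)) := by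
  have := q_norm j
  simp only [On, phi]
  linarith

lemma q_mem_U (j : ℕ) : q j ∈ U := (mem_U _).2 (on_q j)

lemma zero_notMem_U : (0 : Plane) ∉ U := by
  rw [mem_U]
  simp [On, phi]

lemma q_antipodal (i : ℕ) : q (2 * i + 1) = - q (2 * i) := by
  unfold q
  have h1 : (2 * i + 1) % 2 ≠ 0 := by omega
  have h2 : (2 * i) % 2 = 0 := by omega
  have h3 : (2 * i + 1) / 2 = i := by omega
  have h4 : (2 * i) / 2 = i := by omega
  rw [if_neg h1, if_pos h2, h3, h4]

/-- two circles with three common points are equal -/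
lemma circle_unique {c c' : Plane} {r r' : ℝ} (hr : 0 < r) (hr' : 0 < r') {x y z : Plane}
    (hxy : x ≠ y) (hxz : x ≠ z) (hyz : y ≠ z)
    (hx : x ∈ Metric.sphere c r) (hy : y ∈ Metric.sphere c r) (hz : z ∈ Metric.sphere c r)
    (hx' : x ∈ Metric.sphere c' r') (hy' : y ∈ Metric.sphere c' r')
    (hz' : z ∈ Metric.sphere c' r') : Metric.sphere c r = Metric.sphere c' r' := by
  rw [mem_sphere_iff c hr] at hx hy hz
  rw [mem_sphere_iff c' hr'] at hx' hy' hz'
  have hcr := cr_ne_of_On hx hy hz (fun e => hxy (phi_inj e)) (fun e => hxz (phi_inj e))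
    (fun e => hyz (phi_inj e))
  obtain ⟨h1, h2, h3⟩ := On_unique hcr hx hy hz hx' hy' hz'
  ext w
  rw [mem_sphere_iff c hr, mem_sphere_iff c' hr', h1, h2]
  rw [h1, h2] at h3
  rw [h3]

lemma no_antipodal {c : Plane} {r : ℝ} (hr : 0 < r) (i : ℕ) (h0 : (0 : Plane) ∈ Metric.sphere c r)
    (h1 : q (2 * i) ∈ Metric.sphere c r) (h2 : q (2 * i + 1) ∈ Metric.sphere c r) : False := by
  have hne : q (2 * i) ≠ q (2 * i + 1) := fun e => by have := q_inj e; omega
  rw [mem_sphere_iff c hr] at h0 h1 h2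
  have hcr := cr_ne_of_On h0 h1 h2 (fun e => q_ne_zero _ (phi_inj e).symm)
    (fun e => q_ne_zero _ (phi_inj e).symm) (fun e => hne (phi_inj e))
  apply hcr
  rw [q_antipodal]
  simp only [cr, phi, PiLp.neg_apply, PiLp.zero_apply]
  ring

/-- pairs of indices -/
def pairs (N : ℕ) : Finset (Σ _ : ℕ, ℕ) :=
  ((range N).sigma (fun j => range j)) \ (range (N / 2)).image (fun i => ⟨2 * i + 1, 2 * i⟩)

lemma card_pairs (N : ℕ) : (pairs N).card = N * (N - 1) / 2 - N / 2 := by
  unfold pairs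
  rw [card_sdiff_of_subset, card_image_of_injective, card_sigma, card_range]
  · simp only [card_range]
    rw [Finset.sum_range_id]
  · intro i j h
    simp only [Sigma.mk.injEq, heq_eq_eq] at h
    omega
  · intro x hx
    obtain ⟨i, hi, rfl⟩ := mem_image.1 hx
    rw [mem_range] at hi
    rw [mem_sigma, mem_range, mem_range]
    dsimp only
    omega

open Classical in
/-- a circle through the origin and two given points -/
def circ (x : Σ _ : ℕ, ℕ) : Set Plane :=
  if h : ∃ (c : Plane) (r : ℝ), 0 < r ∧ (0 : Plane) ∈ Metric.sphere c r ∧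
    q x.1 ∈ Metric.sphere c r ∧ q x.2 ∈ Metric.sphere c r then
    Metric.sphere h.choose h.choose_spec.choose else ∅

lemma circ_eq {x : Σ _ : ℕ, ℕ} (hx : x.1 ≠ x.2) {c : Plane} {r : ℝ} (hr : 0 < r)
    (h0 : (0 : Plane) ∈ Metric.sphere c r) (h1 : q x.1 ∈ Metric.sphere c r)
    (h2 : q x.2 ∈ Metric.sphere c r) : circ x = Metric.sphere c r := by
  have h : ∃ (c : Plane) (r : ℝ), 0 < r ∧ (0 : Plane) ∈ Metric.sphere c r ∧
    q x.1 ∈ Metric.sphere c r ∧ q x.2 ∈ Metric.sphere c r := ⟨c, r, hr, h0, h1, h2⟩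
  unfold circ
  rw [dif_pos h]
  obtain ⟨a1, a2, a3, a4⟩ := h.choose_spec.choose_spec
  exact circle_unique a1 hr (q_ne_zero _).symm (q_ne_zero _).symm (fun e => hx (q_inj e))
    a2 a3 a4 h0 h1 h2

theorem circles_subset (N : ℕ) :
    Circles (PP N : Set Plane) ⊆ ↑(insert U ((pairs N).image circ)) := by
  classical
  rintro C ⟨⟨c, r, hr, rfl⟩, h3⟩
  rw [coe_insert, coe_image]
  by_cases hU : Metric.sphere c r = U
  · left; exact hU
  right
  -- three points
  have e : (↑(PP N) ∩ Metric.sphere c r : Set Plane) =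
      ↑((PP N).filter (fun x => x ∈ Metric.sphere c r)) := by
    ext x; simp
  rw [e, Set.ncard_coe_finset] at h3
  set F := (PP N).filter (fun x => x ∈ Metric.sphere c r) with hF
  -- at most two points of the unit circle
  have hcirc : ∀ i j k : ℕ, i ≠ j → i ≠ k → j ≠ k → q i ∈ Metric.sphere c r →
      q j ∈ Metric.sphere c r → q k ∈ Metric.sphere c r → False := by
    intro i j k hij hik hjk hi hj hk
    apply hU
    exact circle_unique hr one_pos (fun e => hij (q_inj e)) (fun e => hik (q_inj e))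
      (fun e => hjk (q_inj e)) hi hj hk (q_mem_U i) (q_mem_U j) (q_mem_U k)
  have hmem : ∀ x ∈ F, x ∈ Metric.sphere c r ∧ (x = 0 ∨ ∃ i < N, q i = x) := by
    intro x hx
    rw [hF, mem_filter] at hx
    refine ⟨hx.2, ?_⟩
    have h1 := hx.1
    unfold PP Q at h1
    rw [mem_insert, mem_image] at h1
    rcases h1 with h1 | ⟨i, hi, h1⟩
    · left; exact h1
    · right; exact ⟨i, mem_range.1 hi, h1⟩
  obtain ⟨x, y, z, hx, hy, hz, hxy, hxz, hyz⟩ := two_lt_card_iff.1 (show 2 < F.card by omega)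
  obtain ⟨sx, hx⟩ := hmem x hx
  obtain ⟨sy, hy⟩ := hmem y hy
  obtain ⟨sz, hz⟩ := hmem z hz
  -- the main step
  have key : ∀ i j : ℕ, i < N → j < N → i ≠ j → (0 : Plane) ∈ Metric.sphere c r →
      q i ∈ Metric.sphere c r → q j ∈ Metric.sphere c r →
      Metric.sphere c r ∈ circ '' (pairs N : Set (Σ _ : ℕ, ℕ)) := by
    intro i j hi hj hij h0 h1 h2
    rcases Nat.lt_or_gt_of_ne hij with hlt | hlt
    · refine ⟨⟨j, i⟩, ?_, circ_eq (x := ⟨j, i⟩) (Ne.symm hij) hr h0 h2 h1⟩
      unfold pairs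
      rw [mem_coe, mem_sdiff, mem_sigma, mem_range, mem_range]
      refine ⟨⟨hj, hlt⟩, ?_⟩
      intro hcon
      obtain ⟨k, -, hk⟩ := mem_image.1 hcon
      simp only [Sigma.mk.injEq, heq_eq_eq] at hk
      obtain ⟨rfl, rfl⟩ := hk
      exact no_antipodal hr k h0 h1 h2
    · refine ⟨⟨i, j⟩, ?_, circ_eq (x := ⟨i, j⟩) hij hr h0 h1 h2⟩
      unfold pairs
      rw [mem_coe, mem_sdiff, mem_sigma, mem_range, mem_range]
      refine ⟨⟨hi, hlt⟩, ?_⟩
      intro hcon
      obtain ⟨k, -, hk⟩ := mem_image.1 hcon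
      simp only [Sigma.mk.injEq, heq_eq_eq] at hk
      obtain ⟨rfl, rfl⟩ := hk
      exact no_antipodal hr k h0 h2 h1
  rcases hx with rfl | ⟨i, hi, rfl⟩
  · rcases hy with rfl | ⟨j, hj, rfl⟩
    · exact absurd rfl hxy
    · rcases hz with rfl | ⟨k, hk, rfl⟩
      · exact absurd rfl hxz
      · exact key j k hj hk (fun e => hyz (by rw [e])) sx sy sz
  · rcases hy with rfl | ⟨j, hj, rfl⟩
    · rcases hz with rfl | ⟨k, hk, rfl⟩
      · exact absurd rfl hyz
      · exact key i k hi hk (fun e => hxz (by rw [e])) sy sx sz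
    · rcases hz with rfl | ⟨k, hk, rfl⟩
      · exact key i j hi hj (fun e => hxy (by rw [e])) sz sx sy
      · exact (hcirc i j k (fun e => hxy (by rw [e])) (fun e => hxz (by rw [e]))
          (fun e => hyz (by rw [e])) sx sy sz).elim

theorem ncard_le (N : ℕ) :
    (Circles (PP N : Set Plane)).ncard ≤ N * (N - 1) / 2 - N / 2 + 1 := by
  classical
  calc (Circles (PP N : Set Plane)).ncard
      ≤ (↑(insert U ((pairs N).image circ)) : Set (Set Plane)).ncard :=
        Set.ncard_le_ncard (circles_subset N) (Finset.finite_toSet _)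
    _ = (insert U ((pairs N).image circ)).card := Set.ncard_coe_finset _
    _ ≤ ((pairs N).image circ).card + 1 := card_insert_le _ _
    _ ≤ (pairs N).card + 1 := by
        have := card_image_le (s := pairs N) (f := circ)
        omega
    _ = _ := by rw [card_pairs]

theorem admissible_PP (N : ℕ) (hN : 3 ≤ N) : Admissible (PP N : Set Plane) := by
  have m0 : (0 : Plane) ∈ (PP N : Set Plane) := by simp [PP]
  have mq : ∀ j < N, q j ∈ (PP N : Set Plane) := by
    intro j hj
    simp only [PP, Q, coe_insert, coe_image, coe_range]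
    right
    exact ⟨j, hj, rfl⟩
  constructor
  · intro h
    rw [collinear_iff_cr] at h
    have h1 := h _ m0 _ (mq 0 (by omega)) _ (mq 2 (by omega))
    simp only [cr, phi, q, pt] at h1
    norm_num at h1
  · rintro ⟨c, r, hr, hsub⟩
    have h0 := hsub m0
    have h1 := hsub (mq 0 (by omega))
    have h2 := hsub (mq 1 (by omega))
    exact no_antipodal hr 0 h0 h1 h2

end

end Pool.Agent.H365R2.Circ
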